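import Pool.Agent.helper5.PR.SpecZ

/-!
# Project pr (MP_a2a22c_al), module Z-FINAL: the exact classification, solvable subgroups
-/

set_option autoImplicit false

namespace Pool.Agent.PR

open Matrix

theorem Z_FINAL_of {k : ℕ} {P : Type} [Group P] (h : NonEmb k P) : NonEmbS k P := by
  obtain ⟨h1, h2, h3, h4⟩ := h
  have h5 : Group.IsNilpotent P := h2
  exact ⟨h1, inferInstance, h3, h4⟩

theorem Z_FINAL (hL : Z_L_stmt) (hCFG : X_CFG_stmt) (hCQL : X_CQL_stmt) (hCRF : X_CRF_stmt)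
    (hCNL : Y_CNL_stmt) (hTWO : Y_TWO_stmt) : Z_FINAL_stmt := by
  intro n hn L _
  refine ⟨⟨?_, ?_⟩, ?_⟩
  · rintro ⟨hfg, hrf, hq, P, hP⟩
    exact hL n hn L hfg hrf hq P hP
  · rintro ⟨m, d, Φ, hm, hd, hdm, hsur, hker⟩
    refine ⟨?_, hCRF n hn m d hm hd L Φ hsur hker, ?_, ?_⟩
    · have h1 : Group.FG (SLI n m) := hCFG n hn m hm
      have h0 : NeZero d := ⟨by omega⟩
      have h2 : Finite (SLd n d) := inferInstance
      have h3 : Group.FG (SLI n m × SLd n d) := inferInstance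
      exact Group.fg_of_surjective hsur
    · intro Q _ _ hf
      obtain ⟨f, hf⟩ := hf
      exact hCQL n hn m d hm hd hdm Q ⟨f.comp Φ, hf.comp hsur⟩
    · obtain ⟨P, hP⟩ := hCNL n hn m d hm hd L Φ hsur hker
      exact ⟨P, Z_FINAL_of hP⟩
  · rintro hfg hrf h1 h2 ⟨P, hP⟩
    exact hTWO n hn L hfg hrf h1 h2 (hL n hn L hfg hrf h1 P hP)

end Pool.Agent.PR
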