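import Pool.Agent.helper5.PR.SpecM

/-!
# Project pr: module M-CEN
-/

namespace Pool.Agent.PR

open Matrix

/-- signed permutation matrix that conjugates `cn12` to `cn13` -/
def M_CEN_w13 : SL3 :=
  ⟨!![1, 0, 0; 0, 0, -1; 0, 1, 0], by
    rw [Matrix.det_fin_three]
    simp⟩

/-- permutation matrix that conjugates `cn12` to `cn23` -/
def M_CEN_w23 : SL3 :=
  ⟨!![0, 0, 1; 1, 0, 0; 0, 1, 0], by
    rw [Matrix.det_fin_three]
    simp⟩

theorem M_CEN_c13 (g : SL2) : M_CEN_w13 * cn12 g = cn13 g * M_CEN_w13 := by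
  apply Subtype.ext
  change (M_CEN_w13 : Matrix (Fin 3) (Fin 3) ℤ) * (cn12 g).1 = (cn13 g).1 * M_CEN_w13.1
  ext i j
  fin_cases i <;> fin_cases j <;>
    simp [M_CEN_w13, cn12, cn13, Matrix.mul_apply, Fin.sum_univ_three]

theorem M_CEN_c23 (g : SL2) : M_CEN_w23 * cn12 g = cn23 g * M_CEN_w23 := by
  apply Subtype.ext
  change (M_CEN_w23 : Matrix (Fin 3) (Fin 3) ℤ) * (cn12 g).1 = (cn23 g).1 * M_CEN_w23.1
  ext i j
  fin_cases i <;> fin_cases j <;>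
    simp [M_CEN_w23, cn12, cn23, Matrix.mul_apply, Fin.sum_univ_three]

theorem M_CEN_cong (m : ℕ) (g : SL2) (h : G2 (m : ℤ) g) :
    cn12 g ∈ Pool.Agent.H48SL.Cong (Fin 3) m := by
  obtain ⟨⟨a, ha⟩, ⟨b, hb⟩, ⟨c, hc⟩, ⟨d, hd⟩⟩ := h
  rw [Pool.Agent.H48SL.mem_Cong]
  refine ⟨!![a, b, 0; c, d, 0; 0, 0, 0], ?_⟩
  ext i j
  fin_cases i <;> fin_cases j <;> simp [cn12] <;> linarith

theorem M_CEN_comm (m : ℕ) (N : Subgroup SL3) [N.Normal] (hNQ : Pool.Agent.H48SL.NQ (Fin 3) m ≤ N)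
    (hm : 1 ≤ m) (γ : SL3) (hγ : γ ∈ Pool.Agent.H48SL.Cong (Fin 3) m) :
    (QuotientGroup.mk' N γ) ∈ Subgroup.center (SL3 ⧸ N) := by
  have h1 := Pool.Agent.H48SL.Cong_central m (by omega) (by simp) γ hγ
  rw [Subgroup.mem_center_iff] at h1 ⊢
  intro x
  obtain ⟨h, rfl⟩ := QuotientGroup.mk'_surjective N x
  have h2 := h1 (QuotientGroup.mk' _ h)
  rw [← map_mul, ← map_mul] at h2 ⊢
  have h3 := QuotientGroup.eq.mp h2
  exact QuotientGroup.eq.mpr (hNQ h3)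

theorem M_CEN_eq (N : Subgroup SL3) [N.Normal] (w a b : SL3) (h : w * a = b * w)
    (hc : (QuotientGroup.mk' N a) ∈ Subgroup.center (SL3 ⧸ N)) :
    QuotientGroup.mk' N b = QuotientGroup.mk' N a := by
  have h1 := congrArg (QuotientGroup.mk' N) h
  rw [map_mul, map_mul] at h1
  rw [Subgroup.mem_center_iff] at hc
  rw [hc (QuotientGroup.mk' N w)] at h1
  exact (mul_right_cancel h1).symm

theorem M_CEN (h : M_NQ_stmt) : M_CEN_stmt := by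
  intro m hm N _ hE g hg
  have hNQ := h 3 le_rfl m N hE
  have hc := M_CEN_comm m N hNQ hm (cn12 g) (M_CEN_cong m g hg)
  exact ⟨hc, M_CEN_eq N _ _ _ (M_CEN_c13 g) hc, M_CEN_eq N _ _ _ (M_CEN_c23 g) hc⟩

end Pool.Agent.PR
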